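import Pool.Agent.Helper36.REC.Norm

/-!
# The norm modulo a prime number, when all but one of the factors are `1`
-/

set_option autoImplicit false
set_option linter.unusedSectionVars false

namespace Pool.Agent.Helper36.REC

open Module

section det

variable {R : Type*} [CommRing R] {ι : Type*} [Fintype ι] [DecidableEq ι] (b : Basis ι ℤ R)
  {ℓ : ℕ} [Fact ℓ.Prime] (I : Ideal R) [Algebra (ZMod ℓ) (R ⧸ I)]

/-- reduction of the coordinates -/
noncomputable def redu (ℓ : ℕ) (y : R) : ι → ZMod ℓ := fun i => ((b.repr y i : ℤ) : ZMod ℓ)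

theorem redu_add_mul (y t : R) : redu b ℓ (y + (ℓ : R) * t) = redu b ℓ y := by
  funext i
  unfold redu
  have : (ℓ : R) * t = (ℓ : ℤ) • t := by rw [zsmul_eq_mul, Int.cast_natCast]
  rw [this, map_add, map_zsmul, Finsupp.add_apply, Finsupp.smul_apply]
  simp

theorem redu_surj (v : ι → ZMod ℓ) : ∃ y : R, redu b ℓ y = v := by
  have : NeZero ℓ := ⟨(Fact.out : ℓ.Prime).ne_zero⟩
  refine ⟨b.equivFun.symm (fun i => ((v i).val : ℤ)), ?_⟩
  funext i
  unfold redu
  have h : b.repr (b.equivFun.symm (fun i => ((v i).val : ℤ))) i = ((v i).val : ℤ) := by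
    rw [← Basis.equivFun_apply, LinearEquiv.apply_symm_apply]
  rw [h]
  simp

/-- the map to the quotient -/
noncomputable def rho : (ι → ZMod ℓ) →ₗ[ZMod ℓ] (R ⧸ I) :=
  Fintype.linearCombination (ZMod ℓ) (fun i => Ideal.Quotient.mk I (b i))

theorem rho_redu (y : R) : rho b I (redu b ℓ y) = Ideal.Quotient.mk I y := by
  unfold rho redu
  rw [Fintype.linearCombination_apply]
  conv_rhs => rw [← b.sum_repr y]
  rw [map_sum]
  refine Finset.sum_congr rfl fun i _ => ?_
  rw [Int.cast_smul_eq_zsmul, map_zsmul]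

/-- multiplication by `x` on the coordinates -/
noncomputable def mulx (ℓ : ℕ) (x : R) : (ι → ZMod ℓ) →ₗ[ZMod ℓ] (ι → ZMod ℓ) :=
  Matrix.toLin' ((Algebra.leftMulMatrix b x).map (Int.castRingHom (ZMod ℓ)))

theorem mulx_redu (x y : R) : mulx b ℓ x (redu b ℓ y) = redu b ℓ (x * y) := by
  unfold mulx
  rw [Matrix.toLin'_apply]
  funext i
  have h := congrFun (Algebra.leftMulMatrix_mulVec_repr b x y) i
  unfold redu
  rw [← h]
  simp only [Matrix.mulVec, dotProduct, Matrix.map_apply, Int.cast_sum, Int.cast_mul]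
  rfl

theorem det_mulx (x : R) : LinearMap.det (mulx b ℓ x) = ((Algebra.norm ℤ x : ℤ) : ZMod ℓ) := by
  unfold mulx
  rw [LinearMap.det_toLin', norm_cast b]

include b in
theorem norm_mod (x : R) (h : ∀ y ∈ I, (ℓ : R) ∣ (x - 1) * y) :
    ((Algebra.norm ℤ x : ℤ) : ZMod ℓ) = Algebra.norm (ZMod ℓ) (Ideal.Quotient.mk I x) := by
  classical
  set ρ := rho (ℓ := ℓ) b I with hρ
  have hfix : ∀ v ∈ LinearMap.ker ρ, mulx b ℓ x v = v := by
    intro v hv
    obtain ⟨y, rfl⟩ := redu_surj b v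
    rw [LinearMap.mem_ker, hρ, rho_redu, Ideal.Quotient.eq_zero_iff_mem] at hv
    obtain ⟨t, ht⟩ := h y hv
    rw [mulx_redu]
    have : x * y = y + (ℓ : R) * t := by rw [← ht]; ring
    rw [this, redu_add_mul]
  have he : LinearMap.ker ρ ≤ (LinearMap.ker ρ).comap (mulx b ℓ x) := by
    intro v hv
    rw [Submodule.mem_comap, hfix v hv]
    exact hv
  have hsurj : Function.Surjective ρ := by
    intro q
    obtain ⟨y, rfl⟩ := Ideal.Quotient.mk_surjective q
    exact ⟨redu b ℓ y, rho_redu b I y⟩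
  rw [← det_mulx b, LinearMap.det_eq_det_mul_det (LinearMap.ker ρ) (mulx b ℓ x) he]
  have h1 : (mulx b ℓ x).restrict he = LinearMap.id := by
    ext v : 2
    rw [LinearMap.restrict_apply]
    exact hfix v.1 v.2
  rw [h1, LinearMap.det_id, one_mul, Algebra.norm_apply]
  have h2 := LinearMap.det_conj ((LinearMap.ker ρ).mapQ (LinearMap.ker ρ) (mulx b ℓ x) he)
    (ρ.quotKerEquivOfSurjective hsurj)
  rw [← h2]
  congr 1
  ext q
  obtain ⟨y, rfl⟩ := Ideal.Quotient.mk_surjective q
  have h3 : (ρ.quotKerEquivOfSurjective hsurj).symm (Ideal.Quotient.mk I y) =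
      Submodule.Quotient.mk (redu b ℓ y) := by
    rw [LinearEquiv.symm_apply_eq]
    rw [LinearMap.quotKerEquivOfSurjective_apply_mk]
    exact (rho_redu b I y).symm
  rw [LinearMap.comp_apply, LinearMap.comp_apply, LinearEquiv.coe_coe, LinearEquiv.coe_coe, h3,
    Submodule.mapQ_apply, LinearMap.quotKerEquivOfSurjective_apply_mk, mulx_redu, hρ, rho_redu,
    map_mul]
  rfl

end det

end Pool.Agent.Helper36.REC
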