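import Pool.Agent.Helper36.REC.GLAW
import Pool.Agent.Helper36.REC.NormMod

/-!
# Project REC: packet G_IND
-/

set_option autoImplicit false

namespace Pool.Agent.Helper36.REC

open NumberField Module IsDedekindDomain Pool.Agent.Helper51.RP Pool.Agent.Helper42.PP
open Pool.Agent.Helper51.REC

theorem crt_aux {R : Type*} [CommRing R] {I A B : Ideal R} (h : I ⊔ A * B = ⊤) (u : R) :
    ∃ γ : R, γ - u ∈ I ∧ γ - 1 ∈ A ∧ γ - 1 ∈ B := by
  have h0 : (1 : R) ∈ I ⊔ A * B := by rw [h]; trivial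
  obtain ⟨a, ha, b, hb, hab⟩ := Submodule.mem_sup.1 h0
  have hbA : b ∈ A := (Ideal.mul_le_left : A * B ≤ A) hb
  have hbB : b ∈ B := (Ideal.mul_le_right : A * B ≤ B) hb
  have e1 : u * b + a - u = (1 - u) * a := by linear_combination u * hab
  have e2 : u * b + a - 1 = (u - 1) * b := by linear_combination hab
  refine ⟨u * b + a, ?_, ?_, ?_⟩
  · rw [e1]; exact I.mul_mem_left _ ha
  · rw [e2]; exact A.mul_mem_left _ hbA
  · rw [e2]; exact B.mul_mem_left _ hbB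

section prel

variable {F : Type} [Field F] [NumberField F]

theorem exists_above (F : Type) [Field F] [NumberField F] {ℓ : ℕ} (hℓ : ℓ.Prime) :
    ∃ v : HeightOneSpectrum (𝓞 F), (ℓ : 𝓞 F) ∈ v.asIdeal := by
  have h0 : ((ℓ : ℕ) : 𝓞 F) ≠ 0 := by exact_mod_cast hℓ.ne_zero
  have htop : Ideal.span {((ℓ : ℕ) : 𝓞 F)} ≠ ⊤ := by
    intro h
    rw [Ideal.span_singleton_eq_top] at h
    have h1 := h.map (Algebra.norm ℤ (S := 𝓞 F))
    have h2 : Algebra.norm ℤ (((ℓ : ℕ) : 𝓞 F)) = (ℓ : ℤ) ^ finrank ℤ (𝓞 F) := by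
      exact Algebra.norm_natCast ℤ ℓ
    rw [h2, Int.isUnit_iff_natAbs_eq, Int.natAbs_pow, Int.natAbs_natCast, Nat.pow_eq_one] at h1
    rcases h1 with h1 | h1
    · exact hℓ.one_lt.ne' h1
    · have : 0 < finrank ℤ (𝓞 F) := by
        rw [RingOfIntegers.rank]
        exact finrank_pos
      omega
  obtain ⟨P, hP, hle⟩ := Ideal.exists_le_maximal _ htop
  have hm : ((ℓ : ℕ) : 𝓞 F) ∈ P := hle (Ideal.mem_span_singleton_self _)
  refine ⟨⟨P, hP.isPrime, ?_⟩, hm⟩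
  rintro rfl
  exact h0 ((Submodule.mem_bot _).1 hm)

theorem val_le_of_mem (W : HeightOneSpectrum (𝓞 F)) {x : 𝓞 F} (h : x ∈ W.asIdeal) :
    W.valuation F (x : F) ≤ WithZero.exp (-1 : ℤ) := by
  have h1 : W.valuation F (algebraMap (𝓞 F) F x) = W.intValuation x :=
    W.valuation_of_algebraMap x
  have h2 : W.intValuation x ≤ WithZero.exp (-((1 : ℕ) : ℤ)) :=
    (W.intValuation_le_pow_iff_mem x 1).2 (by rwa [pow_one])
  have h3 : W.valuation F (algebraMap (𝓞 F) F x) ≤ WithZero.exp (-1 : ℤ) := by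
    rw [h1]
    exact_mod_cast h2
  exact h3

theorem dvd_of_val {ℓ : ℕ} (hℓ : ℓ.Prime) (v₀ : HeightOneSpectrum (𝓞 F))
    (hu : ∀ W : HeightOneSpectrum (𝓞 F), (ℓ : 𝓞 F) ∈ W.asIdeal → ordv W (ℓ : F) = 1)
    {x y : 𝓞 F} (hx : ∀ W : HeightOneSpectrum (𝓞 F), (ℓ : 𝓞 F) ∈ W.asIdeal → W ≠ v₀ →
      x ∈ W.asIdeal) (hy : y ∈ v₀.asIdeal) : (ℓ : 𝓞 F) ∣ x * y := by
  have h0 : ((ℓ : ℕ) : F) ≠ 0 := by exact_mod_cast hℓ.ne_zero
  have hint : ∀ W : HeightOneSpectrum (𝓞 F), W.valuation F ((x : F) * (y : F) / (ℓ : F)) ≤ 1 := by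
    intro W
    have hx1 : W.valuation F (x : F) ≤ 1 := W.valuation_le_one x
    have hy1 : W.valuation F (y : F) ≤ 1 := W.valuation_le_one y
    rw [map_div₀, map_mul]
    by_cases hW : (ℓ : 𝓞 F) ∈ W.asIdeal
    · have hv0 : W.valuation F (ℓ : F) ≠ 0 := (Valuation.ne_zero_iff _).2 h0
      have h1 : W.valuation F (ℓ : F) = WithZero.exp (-1 : ℤ) := by
        have := hu W hW
        unfold ordv at this
        rw [← WithZero.exp_log hv0]
        congr 1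
        omega
      rw [h1]
      refine div_le_one_of_le₀ ?_ zero_le
      by_cases hWv : W = v₀
      · subst hWv
        calc W.valuation F (x : F) * W.valuation F (y : F)
            ≤ 1 * WithZero.exp (-1 : ℤ) := mul_le_mul' hx1 (val_le_of_mem W hy)
          _ = _ := one_mul _
      · calc W.valuation F (x : F) * W.valuation F (y : F)
            ≤ WithZero.exp (-1 : ℤ) * 1 := mul_le_mul' (val_le_of_mem W (hx W hW hWv)) hy1
          _ = _ := mul_one _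
    · have h1 : W.valuation F (ℓ : F) = 1 := by
        have h2 := val_one_of_notMem W hW
        have h3 : (((ℓ : ℕ) : 𝓞 F) : F) = (ℓ : F) := map_natCast (algebraMap (𝓞 F) F) ℓ
        rwa [h3] at h2
      rw [h1, div_one]
      exact mul_le_one' hx1 hy1
  obtain ⟨z, hz⟩ := HeightOneSpectrum.mem_integers_of_valuation_le_one F _ hint
  refine ⟨z, ?_⟩
  apply RingOfIntegers.coe_injective
  change algebraMap (𝓞 F) F (x * y) = algebraMap (𝓞 F) F ((ℓ : 𝓞 F) * z)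
  rw [map_mul, map_mul, map_natCast, hz]
  field_simp

/-- The choice of `γ`. -/
theorem exists_gamma {p : ℕ} (hp : p.Prime) {ℓ : ℕ} (hℓ : ℓ.Prime) (hpl : p ≠ ℓ)
    {S : Set (HeightOneSpectrum (𝓞 F))} (hS : S.Finite) (v₀ : HeightOneSpectrum (𝓞 F))
    (hv₀ : (ℓ : 𝓞 F) ∈ v₀.asIdeal) (m : ℕ) (u : 𝓞 F) :
    ∃ γ : 𝓞 F, γ - u ∈ v₀.asIdeal ∧ (p : 𝓞 F) ^ m ∣ γ - 1 ∧
      ∀ W ∈ S, W ≠ v₀ → γ - 1 ∈ W.asIdeal := by
  classical
  set T : Finset (HeightOneSpectrum (𝓞 F)) := hS.toFinset.erase v₀ with hT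
  set J : Ideal (𝓞 F) := Ideal.span {(p : 𝓞 F) ^ m} * ∏ W ∈ T, W.asIdeal with hJ
  have hnle : ¬ J ≤ v₀.asIdeal := by
    intro hle
    rcases (v₀.isPrime.mul_le).1 hle with h | h
    · have h1 : (p : 𝓞 F) ∈ v₀.asIdeal :=
        v₀.isPrime.mem_of_pow_mem m (h (Ideal.mem_span_singleton_self _))
      have hc : IsCoprime (p : ℤ) (ℓ : ℤ) :=
        Nat.isCoprime_iff_coprime.2 ((Nat.coprime_primes hp hℓ).2 hpl)
      obtain ⟨a, c, hac⟩ := hc
      have h2 : ((a : ℤ) : 𝓞 F) * (p : 𝓞 F) + ((c : ℤ) : 𝓞 F) * (ℓ : 𝓞 F) = 1 := by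
        have := congrArg (fun t : ℤ => (t : 𝓞 F)) hac
        push_cast at this
        exact this
      refine v₀.isPrime.ne_top ((Ideal.eq_top_iff_one _).2 ?_)
      rw [← h2]
      exact v₀.asIdeal.add_mem (Ideal.mul_mem_left _ _ h1) (Ideal.mul_mem_left _ _ hv₀)
    · obtain ⟨W, hW, hWle⟩ := (v₀.isPrime.prod_le).1 h
      have hWv : W ≠ v₀ := (Finset.mem_erase.1 hW).1
      apply hWv
      have hmax : W.asIdeal.IsMaximal := W.isMaximal
      exact HeightOneSpectrum.ext (hmax.eq_of_le v₀.isPrime.ne_top hWle)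
  have htop : v₀.asIdeal ⊔ J = ⊤ := by
    have hmax : v₀.asIdeal.IsMaximal := v₀.isMaximal
    exact hmax.1.2 _ (lt_of_le_of_ne le_sup_left fun h => hnle (h ▸ le_sup_right))
  obtain ⟨γ, hγ1, hγ2, hγ3⟩ := crt_aux htop u
  refine ⟨γ, hγ1, Ideal.mem_span_singleton.1 hγ2, fun W hW hWv => ?_⟩
  have h3 : ∏ W ∈ T, W.asIdeal ≤ W.asIdeal := by
    refine (W.isPrime.prod_le).2 ⟨W, ?_, le_rfl⟩
    rw [hT, Finset.mem_erase]
    exact ⟨hWv, hS.mem_toFinset.2 hW⟩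
  exact h3 hγ3

end prel

theorem g_ind (h1 : G_NRM) : G_IND := by
  classical
  intro p _ F _ _ ε S S₀ hS hSS ℓ _ χ c hpl hχ hc hℓS k ζ j hk hζ
  have hp : p.Prime := Fact.out
  have hℓ : ℓ.Prime := Fact.out
  have hne : p ≠ ℓ := by
    rintro rfl
    have h2 := hp.two_le
    have := Nat.le_of_dvd (by omega) hpl
    omega
  obtain ⟨v₀, hv₀⟩ := exists_above F hℓ
  have habove : ∀ W : HeightOneSpectrum (𝓞 F), (ℓ : 𝓞 F) ∈ W.asIdeal →
      W.valuation F (ℓ : F) < 1 := fun W hW => (val_nat_lt_one_iff W ℓ).2 hW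
  -- the residue field
  have hmax : v₀.asIdeal.IsMaximal := v₀.isMaximal
  let _ : Field (𝓞 F ⧸ v₀.asIdeal) := Ideal.Quotient.field v₀.asIdeal
  have hfin : Finite (𝓞 F ⧸ v₀.asIdeal) := Ideal.finiteQuotientOfFreeOfNeBot _ v₀.ne_bot
  have hchar : CharP (𝓞 F ⧸ v₀.asIdeal) ℓ := by
    refine ringChar.of_eq (CharP.ringChar_of_prime_eq_zero hℓ ?_)
    rw [← map_natCast (Ideal.Quotient.mk v₀.asIdeal)]
    exact Ideal.Quotient.eq_zero_iff_mem.2 hv₀
  let _ : Algebra (ZMod ℓ) (𝓞 F ⧸ v₀.asIdeal) := ZMod.algebra _ ℓ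
  obtain ⟨b₀, hb₀⟩ := hχ (Multiplicative.ofAdd (1 : ZMod p))
  obtain ⟨q, hq⟩ := FiniteField.norm_surjective (ZMod ℓ) (𝓞 F ⧸ v₀.asIdeal) (b₀ : ZMod ℓ)
  obtain ⟨u, rfl⟩ := Ideal.Quotient.mk_surjective q
  obtain ⟨γ, hγu, hγp, hγS⟩ := exists_gamma hp hℓ hne hS.fin v₀ hv₀ (k + 3) u
  have hγmk : Ideal.Quotient.mk v₀.asIdeal γ = Ideal.Quotient.mk v₀.asIdeal u :=
    Ideal.Quotient.eq.2 hγu
  have hnorm : ((Algebra.norm ℤ γ : ℤ) : ZMod ℓ) = (b₀ : ZMod ℓ) := by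
    rw [norm_mod (RingOfIntegers.basis F) v₀.asIdeal γ ?_, hγmk, hq]
    intro y hy
    refine dvd_of_val hℓ v₀ (fun W hW => (hℓS W (habove W hW)).2.2) ?_ hy
    intro W hW hWv
    exact hγS W (hℓS W (habove W hW)).1 hWv
  have hγ0 : γ ≠ 0 := by
    intro h0
    rw [h0, Algebra.norm_zero, Int.cast_zero] at hnorm
    exact b₀.ne_zero hnorm.symm
  have hγv : γ ∉ v₀.asIdeal := by
    intro h
    have h2 : Algebra.norm (ZMod ℓ) (Ideal.Quotient.mk v₀.asIdeal u) = 0 := by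
      rw [← hγmk, Ideal.Quotient.eq_zero_iff_mem.2 h, Algebra.norm_zero]
    rw [hq] at h2
    exact b₀.ne_zero h2
  have hγF : (γ : F) ≠ 0 := by
    intro h
    exact hγ0 (RingOfIntegers.coe_eq_zero_iff.1 h)
  set g : Fˣ := Units.mk0 (γ : F) hγF with hg
  have hgv : (g : F) = γ := rfl
  have hord : ∀ W ∈ S, ordv W (γ : F) = 0 := by
    intro W hW
    by_cases hWv : W = v₀
    · subst hWv
      exact ordv_zero_of_val W (val_one_of_notMem W hγv)
    · exact ordv_zero_of_sub_one W (hγS W hW hWv)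
  obtain ⟨hc1, hc2⟩ := h1 p F ε S hS γ g hgv hord
  refine ⟨g, ?_, hord, ?_, ?_⟩
  · refine ⟨1, fun w hw => ?_⟩
    have hwv : w ≠ v₀ := by
      rintro rfl
      exact (hℓS w (habove w hv₀)).2.1 hw
    have e1 : (g : F) * ((1 : Fˣ) : F) ^ p - 1 = algebraMap (𝓞 F) F (γ - 1) := by
      rw [Units.val_one, one_pow, mul_one, hgv, map_sub, map_one]
    rw [e1]
    refine ⟨(w.valuation_lt_one_iff_mem _).2 (hγS w (hSS hw) hwv), ?_⟩
    obtain ⟨t, ht⟩ := hγp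
    rw [ht, map_mul, map_pow, map_natCast, map_mul, map_pow, pow_add]
    have hp1 : w.valuation F (p : F) ≤ 1 := by
      have := w.valuation_le_one (K := F) (p : 𝓞 F)
      have h2 : w.valuation F (algebraMap (𝓞 F) F (p : 𝓞 F)) ≤ 1 := this
      rwa [map_natCast] at h2
    have ht1 : w.valuation F (algebraMap (𝓞 F) F t) ≤ 1 := w.valuation_le_one t
    calc w.valuation F (p : F) ^ k * w.valuation F (p : F) ^ 3 * w.valuation F (algebraMap (𝓞 F) F t)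
        ≤ 1 * w.valuation F (p : F) ^ 3 * 1 :=
          mul_le_mul' (mul_le_mul' (pow_le_one' hp1 k) le_rfl) ht1
      _ = _ := by rw [one_mul, mul_one]
  · rw [(hc2 k ζ j hk hζ).2]
    have ha := absNorm_congr hS.cplx hγ0 (p ^ (k + 1)) (by
      rw [Nat.cast_pow]
      exact (pow_dvd_pow _ (by omega)).trans hγp)
    have hn0 : 1 ≤ Ideal.absNorm (Ideal.span {γ}) := by
      rw [Nat.one_le_iff_ne_zero, Ne, Ideal.absNorm_eq_zero_iff, Ideal.span_singleton_eq_bot]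
      exact hγ0
    have hd : p ^ (k + 1) ∣ Ideal.absNorm (Ideal.span {γ}) - 1 := by
      rw [← ZMod.natCast_eq_zero_iff, Nat.cast_sub hn0, ha, Nat.cast_one, sub_self]
    obtain ⟨t, ht⟩ := hd
    rw [ht, pow_succ, mul_assoc, Nat.mul_div_cancel_left _ (pow_pos hp.pos k), Nat.cast_mul,
      CharP.cast_eq_zero, zero_mul, mul_zero]
  · rw [hc1 ℓ χ c hc (fun W hW => (hℓS W hW).1) b₀ (by
      rw [absNorm_cast hS.cplx hγ0, hnorm]), hb₀]
    exact one_ne_zero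

end Pool.Agent.Helper36.REC
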