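import Mathlib

/-!
# Norms modulo an integer, positivity of the norm of a totally complex field
-/

set_option autoImplicit false

namespace Pool.Agent.Helper36.REC

open NumberField Module

section cong

variable {R : Type*} [CommRing R] {ι : Type*} [Fintype ι] [DecidableEq ι] (b : Basis ι ℤ R)

include b in
/-- The norm of `x` modulo `m` is the determinant of the reduced matrix. -/
theorem norm_cast (m : ℕ) (x : R) : ((Algebra.norm ℤ x : ℤ) : ZMod m) =
    ((Algebra.leftMulMatrix b x).map (Int.castRingHom (ZMod m))).det := by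
  rw [Algebra.norm_eq_matrix_det b]
  change (Int.castRingHom (ZMod m)) _ = _
  rw [RingHom.map_det]
  rfl

include b in
theorem norm_congr (m : ℕ) {x y : R} (h : (m : R) ∣ x - y) :
    ((Algebra.norm ℤ x : ℤ) : ZMod m) = ((Algebra.norm ℤ y : ℤ) : ZMod m) := by
  obtain ⟨t, ht⟩ := h
  rw [norm_cast b, norm_cast b]
  congr 1
  have hx : x = y + (m : ℤ) • t := by
    rw [zsmul_eq_mul, Int.cast_natCast, ← ht]; ring
  ext i j
  simp only [Matrix.map_apply]
  rw [hx, map_add, map_zsmul, Matrix.add_apply, Matrix.smul_apply, map_add]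
  simp

end cong

section pos

variable {F : Type} [Field F] [NumberField F]

theorem norm_pos_of_complex (hF : IsTotallyComplex F) {x : F} (hx : x ≠ 0) :
    0 < Algebra.norm ℚ x := by
  classical
  have h1 : (algebraMap ℚ ℂ) (Algebra.norm ℚ x) = ∏ φ : F →+* ℂ, φ x := by
    rw [Algebra.norm_eq_prod_embeddings ℚ ℂ x]
    exact (Fintype.prod_equiv (RingHom.equivRatAlgHom F ℂ) (fun f => f x)
      (fun φ => φ x) fun _ => by simp [RingHom.equivRatAlgHom_apply]).symm
  have h2 : ∏ φ : F →+* ℂ, (φ x / (‖φ x‖ : ℂ)) = 1 := by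
    refine Finset.prod_involution (fun φ _ => ComplexEmbedding.conjugate φ) ?_ ?_ ?_ ?_
    · intro φ _
      have h0 : φ x ≠ 0 := (map_ne_zero φ).2 hx
      have h0' : (‖φ x‖ : ℂ) ≠ 0 := by exact_mod_cast norm_ne_zero_iff.2 h0
      rw [ComplexEmbedding.conjugate_coe_eq, Complex.norm_conj, div_mul_div_comm,
        Complex.mul_conj, Complex.normSq_eq_norm_sq]
      push_cast
      rw [← pow_two]
      field_simp
    · intro φ _ _ h
      have hr : ComplexEmbedding.IsReal φ := h
      have h3 := (hF.isComplex (InfinitePlace.mk φ))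
      rw [InfinitePlace.isComplex_iff] at h3
      exact h3 ((InfinitePlace.embedding_mk_eq_of_isReal hr).symm ▸ hr)
    · intro φ _
      exact Finset.mem_univ _
    · intro φ _
      exact ComplexEmbedding.involutive_conjugate F φ
  rw [Finset.prod_div_distrib, ← h1] at h2
  have h4 : (∏ φ : F →+* ℂ, (‖φ x‖ : ℂ)) ≠ 0 := by
    rw [Finset.prod_ne_zero_iff]
    intro φ _
    exact_mod_cast norm_ne_zero_iff.2 ((map_ne_zero φ).2 hx)
  rw [div_eq_one_iff_eq h4] at h2
  have h5 : ((Algebra.norm ℚ x : ℚ) : ℝ) = ∏ φ : F →+* ℂ, ‖φ x‖ := by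
    have : (((Algebra.norm ℚ x : ℚ) : ℝ) : ℂ) = ((∏ φ : F →+* ℂ, ‖φ x‖ : ℝ) : ℂ) := by
      push_cast
      rw [← h2]
      simp
    exact_mod_cast this
  have h6 : (0 : ℝ) < ((Algebra.norm ℚ x : ℚ) : ℝ) := by
    rw [h5]
    exact Finset.prod_pos fun φ _ => norm_pos_iff.2 ((map_ne_zero φ).2 hx)
  exact_mod_cast h6

theorem normZ_pos (hF : IsTotallyComplex F) {x : 𝓞 F} (hx : x ≠ 0) : 0 < Algebra.norm ℤ x := by
  have h := norm_pos_of_complex hF (x := (x : F)) (by simpa using hx)
  rw [← Algebra.coe_norm_int] at h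
  exact_mod_cast h

/-- The norm of the principal ideal, for a totally complex field. -/
theorem absNorm_cast (hF : IsTotallyComplex F) {x : 𝓞 F} (hx : x ≠ 0) (m : ℕ) :
    ((Ideal.absNorm (Ideal.span {x}) : ℕ) : ZMod m) = ((Algebra.norm ℤ x : ℤ) : ZMod m) := by
  rw [Ideal.absNorm_span_singleton]
  have h := normZ_pos hF hx
  have h1 : ((Algebra.norm ℤ x).natAbs : ℤ) = Algebra.norm ℤ x := Int.natAbs_of_nonneg h.le
  conv_rhs => rw [← h1]
  rw [Int.cast_natCast]

theorem absNorm_congr (hF : IsTotallyComplex F) {x : 𝓞 F} (hx : x ≠ 0) (m : ℕ)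
    (h : (m : 𝓞 F) ∣ x - 1) : ((Ideal.absNorm (Ideal.span {x}) : ℕ) : ZMod m) = 1 := by
  classical
  rw [absNorm_cast hF hx, norm_congr (RingOfIntegers.basis F) m h]
  simp

end pos

end Pool.Agent.Helper36.REC
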