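import Pool.Agent.Helper51.REC.Goals2
import Pool.Agent.Helper36.REC.Norm

/-!
# Project REC: packet G_LAW
-/

set_option autoImplicit false

namespace Pool.Agent.Helper36.REC

open NumberField Module IsDedekindDomain Pool.Agent.Helper51.RP Pool.Agent.Helper42.PP
open Pool.Agent.Helper51.REC

section basics

variable {F : Type} [Field F] [NumberField F] (W : HeightOneSpectrum (𝓞 F))

theorem ordv_pow' (x : F) (n : ℕ) : ordv W (x ^ n) = n * ordv W x := by
  unfold ordv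
  rw [map_pow, WithZero.log_pow]
  simp

theorem ordv_zero_of_val {x : F} (h : W.valuation F x = 1) : ordv W x = 0 := by
  unfold ordv
  rw [h, WithZero.log_one, neg_zero]

theorem val_one_of_notMem {x : 𝓞 F} (h : x ∉ W.asIdeal) : W.valuation F (x : F) = 1 := by
  have h1 : W.valuation F (algebraMap (𝓞 F) F x) ≤ 1 := W.valuation_le_one x
  rcases h1.lt_or_eq with h2 | h2
  · exact absurd ((W.valuation_lt_one_iff_mem x).1 h2) h
  · exact h2

omit [NumberField F] in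
theorem notMem_of_sub_one {x : 𝓞 F} (h : x - 1 ∈ W.asIdeal) : x ∉ W.asIdeal := by
  intro hx
  have h1 : (1 : 𝓞 F) ∈ W.asIdeal := by
    have := W.asIdeal.sub_mem hx h
    rwa [sub_sub_cancel] at this
  exact W.isPrime.ne_top ((Ideal.eq_top_iff_one _).2 h1)

theorem ordv_zero_of_sub_one {x : 𝓞 F} (h : x - 1 ∈ W.asIdeal) : ordv W (x : F) = 0 :=
  ordv_zero_of_val W (val_one_of_notMem W (notMem_of_sub_one W h))

theorem val_nat_lt_one_iff (n : ℕ) : W.valuation F (n : F) < 1 ↔ (n : 𝓞 F) ∈ W.asIdeal := by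
  have h : W.valuation F (algebraMap (𝓞 F) F (n : 𝓞 F)) < 1 ↔ (n : 𝓞 F) ∈ W.asIdeal :=
    W.valuation_lt_one_iff_mem (K := F) (n : 𝓞 F)
  rwa [map_natCast] at h

end basics

/-- `p`-th powers contribute `0`. -/
theorem brk_int {p : ℕ} [Fact p.Prime] {F : Type} [Field F] [NumberField F] {ε : F}
    {S : Set (HeightOneSpectrum (𝓞 F))} (h1 : K_BRK) (hS : Sit p F ε S) (x β g₀ g₁ e : Fˣ)
    (h : β * g₁ = g₀ * e ^ p) : brk p ε S x β = brk p ε S x g₀ - brk p ε S x g₁ := by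
  obtain ⟨a1, a2, -⟩ := h1 p F ε S hS.prim hS.abp
  have e1 : brk p ε S x (e ^ p) = 0 := by
    refine a2 x (e ^ p) fun W _ => ?_
    rw [Units.val_pow_eq_pow_val, ordv_pow']
    exact Dvd.intro _ rfl
  have e2 := congrArg (brk p ε S x) h
  rw [a1, a1, e1, add_zero] at e2
  rw [← e2]; ring

/-- An element which is congruent to `1` modulo all the primes above `ℓ` has norm `1` modulo `ℓ`. -/
theorem norm_one_of_primes {F : Type} [Field F] [NumberField F] {ℓ : ℕ} [Fact ℓ.Prime] {x : 𝓞 F}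
    (h : ∀ W : HeightOneSpectrum (𝓞 F), (ℓ : 𝓞 F) ∈ W.asIdeal → x - 1 ∈ W.asIdeal) :
    ((Algebra.norm ℤ x : ℤ) : ZMod ℓ) = 1 := by
  classical
  have hℓ : (ℓ : ℕ).Prime := Fact.out
  have h0 : ((ℓ : ℕ) : 𝓞 F) ≠ 0 := by exact_mod_cast hℓ.ne_zero
  have hr : x - 1 ∈ (Ideal.span {((ℓ : ℕ) : 𝓞 F)}).radical := by
    rw [Ideal.radical_eq_sInf, Submodule.mem_sInf]
    rintro P ⟨hP1, hP2⟩
    have hℓP : ((ℓ : ℕ) : 𝓞 F) ∈ P := hP1 (Ideal.mem_span_singleton_self _)
    have hne : P ≠ ⊥ := by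
      rintro rfl
      exact h0 ((Submodule.mem_bot _).1 hℓP)
    exact h ⟨P, hP2, hne⟩ hℓP
  obtain ⟨m, hm⟩ := hr
  have hlt : m ≤ ℓ ^ m := (Nat.lt_pow_self hℓ.one_lt).le
  have hm2 : (x - 1) ^ ℓ ^ m ∈ Ideal.span {((ℓ : ℕ) : 𝓞 F)} := Ideal.pow_mem_of_pow_mem _ hm hlt
  obtain ⟨t, ht⟩ := Ideal.mem_span_singleton'.1 hm2
  obtain ⟨r, hr⟩ := exists_add_pow_prime_pow_eq hℓ (x - 1) 1 m
  have hdvd : ((ℓ : ℕ) : 𝓞 F) ∣ x ^ ℓ ^ m - 1 := by
    refine ⟨t + (x - 1) * 1 * r, ?_⟩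
    rw [sub_add_cancel, ← ht] at hr
    rw [hr]; ring
  have h2 := norm_congr (RingOfIntegers.basis F) ℓ hdvd
  rw [map_pow, map_one, Int.cast_one, Int.cast_pow] at h2
  rwa [ZMod.pow_card_pow] at h2

theorem g_law (h1 : K_BRK) (h2 : G_NRM) (h3 : G_INT) : G_LAW := by
  intro p _ F _ _ ε S hS
  have hp : p.Prime := Fact.out
  constructor
  · intro ℓ _ χ c hc hℓS β hβ
    obtain ⟨γ, g, e, hg, hγp, hγS, hβe⟩ := h3 p F ε S hS β 1 hβ
    rw [brk_int h1 hS c β (g 0) (g 1) e hβe]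
    have key : ∀ i, brk p ε S c (g i) = 0 := by
      intro i
      have hne : γ i ≠ 0 := by
        intro h0
        have := (g i).ne_zero
        rw [hg i, h0] at this
        exact this (by simp)
      have hn := norm_one_of_primes (ℓ := ℓ) (x := γ i)
        (fun W hW => hγS i W (hℓS W ((val_nat_lt_one_iff W ℓ).2 hW)))
      have ha := absNorm_cast hS.cplx hne ℓ
      rw [hn] at ha
      have := (h2 p F ε S hS (γ i) (g i) (hg i)
        (fun W hW => ordv_zero_of_sub_one W (hγS i W hW))).1 ℓ χ c hc hℓS 1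
        (by rw [ha, Units.val_one])
      rw [this, map_one]
      rfl
    rw [key, key, sub_zero]
  · intro k ζ j hk hζ β hβ
    obtain ⟨γ, g, e, hg, hγp, hγS, hβe⟩ := h3 p F ε S hS β (k + 1) hβ
    rw [brk_int h1 hS ζ β (g 0) (g 1) e hβe]
    have key : ∀ i, brk p ε S ζ (g i) = 0 := by
      intro i
      have hne : γ i ≠ 0 := by
        intro h0
        have := (g i).ne_zero
        rw [hg i, h0] at this
        exact this (by simp)
      have ha := absNorm_congr hS.cplx hne (p ^ (k + 1)) (by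
        rw [Nat.cast_pow]; exact hγp i)
      have hn0 : 1 ≤ Ideal.absNorm (Ideal.span {γ i}) := by
        rw [Nat.one_le_iff_ne_zero, Ne, Ideal.absNorm_eq_zero_iff, Ideal.span_singleton_eq_bot]
        exact hne
      have hd : p ^ (k + 1) ∣ Ideal.absNorm (Ideal.span {γ i}) - 1 := by
        rw [← ZMod.natCast_eq_zero_iff, Nat.cast_sub hn0, ha, Nat.cast_one, sub_self]
      have := ((h2 p F ε S hS (γ i) (g i) (hg i)
        (fun W hW => ordv_zero_of_sub_one W (hγS i W hW))).2 k ζ j hk hζ).2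
      rw [this]
      obtain ⟨t, ht⟩ := hd
      rw [ht, pow_succ, mul_assoc, Nat.mul_div_cancel_left _ (pow_pos hp.pos k), Nat.cast_mul,
        CharP.cast_eq_zero, zero_mul, mul_zero]
    rw [key, key, sub_zero]

end Pool.Agent.Helper36.REC
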